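import Mathlib

set_option autoImplicit false
open MeasureTheory

namespace Pool.Agent.H624R3

/-- the plane -/
abbrev P2 := EuclideanSpace ℝ (Fin 2)

/-- the integrand -/
noncomputable def Fp (A : Set P2) (q : ℝ) (x : P2) : ℝ :=
  (sSup {t : ℝ | ∃ u : P2, ‖u‖ = 1 ∧
            (∀ y ∈ A, @inner ℝ _ _ y u ≤ @inner ℝ _ _ x u) ∧ t = @inner ℝ _ _ x u}) ^ q

lemma inner2 (x y : P2) : @inner ℝ _ _ x y = x 0 * y 0 + x 1 * y 1 := by
  rw [PiLp.inner_apply]
  simp [Fin.sum_univ_two]
  ring

lemma norm2 (x : P2) : ‖x‖ = Real.sqrt (x 0 ^ 2 + x 1 ^ 2) := by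
  rw [EuclideanSpace.norm_eq]
  simp [Fin.sum_univ_two]

lemma unit_pm (p q r s : ℝ) (h1 : p ^ 2 + q ^ 2 = 1) (h2 : r ^ 2 + s ^ 2 = 1)
    (h3 : p * s - q * r = 0) : (p = r ∧ q = s) ∨ (p = -r ∧ q = -s) := by
  have f4 : (p * r + q * s) ^ 2 = 1 := by
    have : (p * r + q * s) ^ 2 + (p * s - q * r) ^ 2 = (p ^ 2 + q ^ 2) * (r ^ 2 + s ^ 2) := by ring
    rw [h3, h1, h2] at this
    linarith
  have f5 : (p * r + q * s - 1) * (p * r + q * s + 1) = 0 := by
    linear_combination f4
  rcases mul_eq_zero.1 f5 with h | h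
  · left
    have g : (p - r) ^ 2 + (q - s) ^ 2 = 0 := by
      linear_combination h1 + h2 - 2 * h
    have g0 : (p - r) ^ 2 = 0 := by
      linarith [sq_nonneg (p - r), sq_nonneg (q - s)]
    have g1 : (q - s) ^ 2 = 0 := by
      linarith [sq_nonneg (p - r), sq_nonneg (q - s)]
    exact ⟨by linarith [pow_eq_zero_iff (two_ne_zero) |>.1 g0],
      by linarith [pow_eq_zero_iff (two_ne_zero) |>.1 g1]⟩
  · right
    have g : (p + r) ^ 2 + (q + s) ^ 2 = 0 := by
      linear_combination h1 + h2 + 2 * h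
    have g0 : (p + r) ^ 2 = 0 := by
      linarith [sq_nonneg (p + r), sq_nonneg (q + s)]
    have g1 : (q + s) ^ 2 = 0 := by
      linarith [sq_nonneg (p + r), sq_nonneg (q + s)]
    exact ⟨by linarith [pow_eq_zero_iff (two_ne_zero) |>.1 g0],
      by linarith [pow_eq_zero_iff (two_ne_zero) |>.1 g1]⟩

/-- At an interior point of an edge the outer normal is unique. -/
lemma edge_normal {A : Set P2} {a b u0 z x : P2} {c : ℝ} (ha : a ∈ A) (hb : b ∈ A) (hab : a ≠ b)
    (hu0 : ‖u0‖ = 1) (hau : @inner ℝ _ _ a u0 = c) (hbu : @inner ℝ _ _ b u0 = c)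
    (hz : z ∈ A) (hzu : @inner ℝ _ _ z u0 < c) (hx : x ∈ openSegment ℝ a b)
    (u : P2) (hu : ‖u‖ = 1) (hmax : ∀ y ∈ A, @inner ℝ _ _ y u ≤ @inner ℝ _ _ x u) : u = u0 := by
  obtain ⟨s, t, hs, ht, hst, rfl⟩ := hx
  have h1 := hmax a ha
  have h2 := hmax b hb
  have h3 := hmax z hz
  rw [inner2, inner2] at h1 h2 h3
  rw [inner2] at hau hbu hzu
  rw [norm2] at hu hu0
  have hu' : u 0 ^ 2 + u 1 ^ 2 = 1 := by
    have := Real.sqrt_eq_one.1 hu
    exact this
  have hu0' : u0 0 ^ 2 + u0 1 ^ 2 = 1 := Real.sqrt_eq_one.1 hu0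
  simp only [PiLp.add_apply, PiLp.smul_apply, smul_eq_mul] at h1 h2 h3
  have ht' : t = 1 - s := by linarith
  subst ht'
  -- a.u = b.u
  have e1 : a 0 * u 0 + a 1 * u 1 = b 0 * u 0 + b 1 * u 1 := by
    apply le_antisymm
    · by_contra hc
      push Not at hc
      nlinarith
    · by_contra hc
      push Not at hc
      nlinarith
  have e2 : (s * a 0 + (1 - s) * b 0) * u 0 + (s * a 1 + (1 - s) * b 1) * u 1
      = b 0 * u 0 + b 1 * u 1 := by
    linear_combination s * e1
  rw [e2] at h3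
  -- d = a - b nonzero
  have hd : a 0 - b 0 ≠ 0 ∨ a 1 - b 1 ≠ 0 := by
    by_contra hcon
    push Not at hcon
    apply hab
    ext i
    fin_cases i
    · simpa using by linarith [hcon.1]
    · simpa using by linarith [hcon.2]
  have f1 : (a 0 - b 0) * u 0 + (a 1 - b 1) * u 1 = 0 := by linarith
  have f2 : (a 0 - b 0) * u0 0 + (a 1 - b 1) * u0 1 = 0 := by linarith
  -- cross product of u and u0 vanishes
  have f3 : u 0 * u0 1 - u 1 * u0 0 = 0 := by
    rcases hd with hd | hd
    · have : (a 0 - b 0) * (u 0 * u0 1 - u 1 * u0 0) = 0 := by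
        linear_combination u0 1 * f1 - u 1 * f2
      rcases mul_eq_zero.1 this with h | h
      · exact absurd h hd
      · exact h
    · have : (a 1 - b 1) * (u 0 * u0 1 - u 1 * u0 0) = 0 := by
        linear_combination u 0 * f2 - u0 0 * f1
      rcases mul_eq_zero.1 this with h | h
      · exact absurd h hd
      · exact h
  have key := unit_pm (u 0) (u 1) (u0 0) (u0 1) hu' hu0' f3
  rcases key with ⟨g0, g1⟩ | ⟨g0, g1⟩
  · ext i
    fin_cases i
    · simpa using g0
    · simpa using g1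
  · exfalso
    rw [g0, g1] at h3
    have k1 : c ≤ z 0 * u0 0 + z 1 * u0 1 := by
      rw [← hbu]
      linarith only [h3]
    exact absurd hzu (not_lt.2 k1)

/-- value of the integrand at an interior point of an edge -/
lemma Fp_edge {A : Set P2} {a b u0 z x : P2} {c q : ℝ} (ha : a ∈ A) (hb : b ∈ A) (hab : a ≠ b)
    (hu0 : ‖u0‖ = 1) (hau : @inner ℝ _ _ a u0 = c) (hbu : @inner ℝ _ _ b u0 = c)
    (hA : ∀ y ∈ A, @inner ℝ _ _ y u0 ≤ c)
    (hz : z ∈ A) (hzu : @inner ℝ _ _ z u0 < c) (hx : x ∈ openSegment ℝ a b) :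
    Fp A q x = c ^ q := by
  have hxu : @inner ℝ _ _ x u0 = c := by
    obtain ⟨s, t, hs, ht, hst, rfl⟩ := hx
    rw [inner_add_left, inner_smul_left, inner_smul_left, hau, hbu]
    simp only [conj_trivial]
    rw [← add_mul, hst, one_mul]
  have hset : {t : ℝ | ∃ u : P2, ‖u‖ = 1 ∧
            (∀ y ∈ A, @inner ℝ _ _ y u ≤ @inner ℝ _ _ x u) ∧ t = @inner ℝ _ _ x u} = {c} := by
    ext t
    simp only [Set.mem_ofPred_eq, Set.mem_singleton_iff]
    constructor
    · rintro ⟨u, hu, hm, rfl⟩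
      rw [edge_normal ha hb hab hu0 hau hbu hz hzu hx u hu hm, hxu]
    · rintro rfl
      exact ⟨u0, hu0, fun y hy => by rw [hxu]; exact hA y hy, hxu.symm⟩
  unfold Fp
  rw [hset, csSup_singleton]

lemma segment_diff_open {a b x : P2} (hx : x ∈ segment ℝ a b) (h : x ∉ openSegment ℝ a b) :
    x = a ∨ x = b := by
  rw [← insert_endpoints_openSegment] at hx
  rcases hx with hx | hx | hx
  · exact Or.inl hx
  · exact Or.inr hx
  · exact absurd hx h

/-- data of the edges of a polygon, and the value of the boundary integral -/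
lemma boundary_integral {A : Set P2} {m : ℕ} {a b u : Fin m → P2} {z : P2} {c : Fin m → ℝ} {q : ℝ}
    (ha : ∀ i, a i ∈ A) (hb : ∀ i, b i ∈ A) (hab : ∀ i, a i ≠ b i)
    (hu : ∀ i, ‖u i‖ = 1) (hau : ∀ i, @inner ℝ _ _ (a i) (u i) = c i)
    (hbu : ∀ i, @inner ℝ _ _ (b i) (u i) = c i)
    (hA : ∀ i, ∀ y ∈ A, @inner ℝ _ _ y (u i) ≤ c i)
    (hz : z ∈ A) (hzu : ∀ i, @inner ℝ _ _ z (u i) < c i)
    (huinj : Function.Injective u)
    (hfr : frontier A = ⋃ i, segment ℝ (a i) (b i)) :
    ∫ x in frontier A, Fp A q x ∂(μH[1]) = ∑ i, c i ^ q * dist (a i) (b i) := by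
  have : NullSingletonClass (μH[1] : Measure P2) :=
    Measure.nullSingletonClass_hausdorff P2 one_pos
  have hseg : ∀ i, IsCompact (segment ℝ (a i) (b i)) := fun i => by
    rw [segment_eq_image_lineMap]
    exact isCompact_Icc.image AffineMap.lineMap_continuous
  have hmeas : ∀ i, MeasurableSet (segment ℝ (a i) (b i)) := fun i => (hseg i).measurableSet
  have hae : ∀ i, ∀ᵐ x ∂(μH[1] : Measure P2), x ∈ segment ℝ (a i) (b i) → Fp A q x = c i ^ q := by
    intro i
    have hnull : (μH[1] : Measure P2) ({a i, b i} : Set P2) = 0 :=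
      Set.Finite.measure_zero (by simp) _
    refine (measure_eq_zero_iff_ae_notMem.1 hnull).mono ?_
    intro x hx hxs
    by_cases hxo : x ∈ openSegment ℝ (a i) (b i)
    · exact Fp_edge (ha i) (hb i) (hab i) (hu i) (hau i) (hbu i) (hA i) hz (hzu i) hxo
    · exfalso
      apply hx
      rcases segment_diff_open hxs hxo with h | h
      · simp [h]
      · simp [h]
  have hdisj : Pairwise (Function.onFun (AEDisjoint (μH[1] : Measure P2))
      fun i => segment ℝ (a i) (b i)) := by
    intro i j hij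
    have hsub : segment ℝ (a i) (b i) ∩ segment ℝ (a j) (b j) ⊆ ({a i, b i} : Set P2) := by
      rintro x ⟨hx1, hx2⟩
      by_cases hxo : x ∈ openSegment ℝ (a i) (b i)
      · exfalso
        apply hij
        apply huinj
        symm
        have hxu : @inner ℝ _ _ x (u j) = c j := by
          obtain ⟨s, t, hs, ht, hst, rfl⟩ := hx2
          rw [inner_add_left, inner_smul_left, inner_smul_left, hau, hbu]
          simp only [conj_trivial]
          rw [← add_mul, hst, one_mul]
        exact edge_normal (ha i) (hb i) (hab i) (hu i) (hau i) (hbu i) hz (hzu i) hxo (u j) (hu j)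
          (fun y hy => by rw [hxu]; exact hA j y hy)
      · rcases segment_diff_open hx1 hxo with h | h
        · simp [h]
        · simp [h]
    exact measure_mono_null hsub (Set.Finite.measure_zero (by simp) _)
  have hlen : ∀ i, (μH[1] : Measure P2) (segment ℝ (a i) (b i)) = edist (a i) (b i) :=
    fun i => hausdorffMeasure_segment _ _
  have hinti : ∀ i, IntegrableOn (Fp A q) (segment ℝ (a i) (b i)) (μH[1] : Measure P2) := by
    intro i
    have h1 : IntegrableOn (fun _ : P2 => c i ^ q) (segment ℝ (a i) (b i)) (μH[1] : Measure P2) := by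
      apply integrableOn_const
      · rw [hlen]; exact edist_ne_top _ _
      · simp
    refine h1.congr ?_
    rw [Filter.EventuallyEq, ae_restrict_iff' (hmeas i)]
    filter_upwards [hae i] with x hx hxs
    exact (hx hxs).symm
  have hint : IntegrableOn (Fp A q) (⋃ i, segment ℝ (a i) (b i)) (μH[1] : Measure P2) := by
    rw [integrableOn_finite_iUnion]
    exact hinti
  rw [hfr, integral_iUnion_ae (fun i => (hmeas i).nullMeasurableSet) hdisj hint, tsum_fintype]
  refine Finset.sum_congr rfl fun i _ => ?_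
  rw [setIntegral_congr_ae (hmeas i) (g := fun _ => c i ^ q) (hae i), setIntegral_const]
  rw [Measure.real, hlen, edist_dist, ENNReal.toReal_ofReal dist_nonneg, smul_eq_mul, mul_comm]

end Pool.Agent.H624R3
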