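import Mathlib
import Pool.Agent.H624R3.Edge

set_option autoImplicit false
open MeasureTheory

namespace Pool.Agent.H624R3

/-- polygon given by linear inequalities -/
def PG {m : ℕ} (v w d : Fin m → ℝ) : Set P2 := {x | ∀ i, v i * x 0 + w i * x 1 ≤ d i}

lemma cont0 : Continuous (fun x : P2 => x 0) := by fun_prop
lemma cont1 : Continuous (fun x : P2 => x 1) := by fun_prop

lemma PG_closed {m : ℕ} (v w d : Fin m → ℝ) : IsClosed (PG v w d) := by
  have : PG v w d = ⋂ i, {x : P2 | v i * x 0 + w i * x 1 ≤ d i} := by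
    ext x; simp [PG]
  rw [this]
  refine isClosed_iInter fun i => isClosed_le ?_ continuous_const
  fun_prop

lemma PG_convex {m : ℕ} (v w d : Fin m → ℝ) : Convex ℝ (PG v w d) := by
  intro x hx y hy s t hs ht hst i
  have h1 := hx i
  have h2 := hy i
  simp only [PiLp.add_apply, PiLp.smul_apply, smul_eq_mul]
  have h3 : v i * (s * x 0 + t * y 0) + w i * (s * x 1 + t * y 1)
    = s * (v i * x 0 + w i * x 1) + t * (v i * y 0 + w i * y 1) := by ring
  rw [h3]
  have h4 : d i = s * d i + t * d i := by rw [← add_mul, hst, one_mul]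
  rw [h4]
  exact add_le_add (mul_le_mul_of_nonneg_left h1 hs) (mul_le_mul_of_nonneg_left h2 ht)

lemma PG_interior {m : ℕ} (v w d : Fin m → ℝ) (hv : ∀ i, 0 < v i ^ 2 + w i ^ 2) :
    interior (PG v w d) = {x : P2 | ∀ i, v i * x 0 + w i * x 1 < d i} := by
  apply Set.Subset.antisymm
  · intro x hx i
    have hc : Continuous (fun e : ℝ => x + e • (!₂[v i, w i] : P2)) := by fun_prop
    have h0 : (fun e : ℝ => x + e • (!₂[v i, w i] : P2)) 0 ∈ interior (PG v w d) := by
      simpa using hx
    have hev : ∀ᶠ e in nhds (0 : ℝ), (fun e : ℝ => x + e • (!₂[v i, w i] : P2)) e ∈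
        interior (PG v w d) := hc.continuousAt (isOpen_interior.mem_nhds h0)
    obtain ⟨ε, hε, hball⟩ := Metric.eventually_nhds_iff.1 hev
    have h1 := hball (y := ε / 2) (by
      rw [Real.dist_eq, sub_zero, abs_of_pos (by linarith)]; linarith)
    have h2 := interior_subset h1 i
    simp at h2
    nlinarith [hv i, mul_pos (half_pos hε) (hv i)]
  · apply interior_maximal
    · intro x hx i
      exact (hx i).le
    · have : {x : P2 | ∀ i, v i * x 0 + w i * x 1 < d i} =
        ⋂ i, {x : P2 | v i * x 0 + w i * x 1 < d i} := by ext x; simp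
      rw [this]
      refine isOpen_iInter_of_finite fun i => isOpen_lt ?_ continuous_const
      fun_prop

lemma PG_frontier {m : ℕ} (v w d : Fin m → ℝ) (hv : ∀ i, 0 < v i ^ 2 + w i ^ 2)
    (a b : Fin m → P2) (ha : ∀ i, a i ∈ PG v w d) (hb : ∀ i, b i ∈ PG v w d)
    (hae : ∀ i, v i * a i 0 + w i * a i 1 = d i) (hbe : ∀ i, v i * b i 0 + w i * b i 1 = d i)
    (hface : ∀ i, ∀ x ∈ PG v w d, v i * x 0 + w i * x 1 = d i → x ∈ segment ℝ (a i) (b i)) :
    frontier (PG v w d) = ⋃ i, segment ℝ (a i) (b i) := by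
  rw [(PG_closed v w d).frontier_eq, PG_interior v w d hv]
  ext x
  simp only [Set.mem_sdiff, Set.mem_ofPred_eq, Set.mem_iUnion]
  constructor
  · rintro ⟨h1, h2⟩
    push Not at h2
    obtain ⟨i, hi⟩ := h2
    exact ⟨i, hface i x h1 (le_antisymm (h1 i) hi)⟩
  · rintro ⟨i, hi⟩
    refine ⟨(PG_convex v w d).segment_subset (ha i) (hb i) hi, ?_⟩
    push Not
    refine ⟨i, ?_⟩
    obtain ⟨s, t, hs, ht, hst, rfl⟩ := hi
    simp only [PiLp.add_apply, PiLp.smul_apply, smul_eq_mul]
    have h3 : v i * (s * a i 0 + t * b i 0) + w i * (s * a i 1 + t * b i 1)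
      = s * (v i * a i 0 + w i * a i 1) + t * (v i * b i 0 + w i * b i 1) := by ring
    rw [h3, hae, hbe, ← add_mul, hst, one_mul]

/-- The boundary integral for a polygon. -/
lemma PG_integral {m : ℕ} (v w d r l : Fin m → ℝ) (q : ℝ) (hr : ∀ i, 0 < r i)
    (hr2 : ∀ i, r i ^ 2 = v i ^ 2 + w i ^ 2)
    (a b : Fin m → P2) (ha : ∀ i, a i ∈ PG v w d) (hb : ∀ i, b i ∈ PG v w d)
    (hae : ∀ i, v i * a i 0 + w i * a i 1 = d i) (hbe : ∀ i, v i * b i 0 + w i * b i 1 = d i)
    (hface : ∀ i, ∀ x ∈ PG v w d, v i * x 0 + w i * x 1 = d i → x ∈ segment ℝ (a i) (b i))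
    (hl : ∀ i, 0 < l i) (hl2 : ∀ i, l i ^ 2 = (a i 0 - b i 0) ^ 2 + (a i 1 - b i 1) ^ 2)
    (z : P2) (hz : ∀ i, v i * z 0 + w i * z 1 < d i)
    (hinj : ∀ i j, v i * r j = v j * r i → w i * r j = w j * r i → i = j) :
    ∫ x in frontier (PG v w d), Fp (PG v w d) q x ∂(μH[1]) = ∑ i, (d i / r i) ^ q * l i := by
  have hv : ∀ i, 0 < v i ^ 2 + w i ^ 2 := fun i => by
    rw [← hr2]; exact pow_pos (hr i) 2
  have hin : ∀ (x : P2) (i : Fin m), @inner ℝ _ _ x (!₂[v i / r i, w i / r i] : P2) =
      (v i * x 0 + w i * x 1) / r i := by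
    intro x i
    rw [inner2]
    simp
    ring
  have hdist : ∀ i, dist (a i) (b i) = l i := by
    intro i
    rw [EuclideanSpace.dist_eq, Fin.sum_univ_two, Real.dist_eq, Real.dist_eq, sq_abs, sq_abs,
      ← hl2, Real.sqrt_sq (hl i).le]
  have key := boundary_integral (A := PG v w d) (a := a) (b := b)
    (u := fun i => (!₂[v i / r i, w i / r i] : P2)) (z := z) (c := fun i => d i / r i) (q := q)
    ha hb (fun i h => by
      have h1 := hdist i
      rw [h, dist_self] at h1
      linarith [hl i])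
    (fun i => by
      rw [norm2]
      simp only [Matrix.cons_val_zero, Matrix.cons_val_one]
      rw [Real.sqrt_eq_one, div_pow, div_pow, ← add_div, ← hr2, div_self]
      exact pow_ne_zero 2 (hr i).ne')
    (fun i => by rw [hin, hae]) (fun i => by rw [hin, hbe])
    (fun i y hy => by
      rw [hin]
      exact div_le_div_of_nonneg_right (hy i) (hr i).le)
    (fun i => (hz i).le)
    (fun i => by
      rw [hin]
      exact div_lt_div_of_pos_right (hz i) (hr i))
    (fun i j h => by
      apply hinj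
      · have := congrArg (fun p : P2 => p 0) h
        simp only [Matrix.cons_val_zero] at this
        exact (div_eq_div_iff (hr i).ne' (hr j).ne').1 this
      · have := congrArg (fun p : P2 => p 1) h
        simp only [Matrix.cons_val_one] at this
        exact (div_eq_div_iff (hr i).ne' (hr j).ne').1 this)
    (PG_frontier v w d hv a b ha hb hae hbe hface)
  rw [key]
  refine Finset.sum_congr rfl fun i _ => ?_
  rw [hdist]

/-- membership in a segment through a parameter -/
lemma mem_seg {a b x : P2} (t : ℝ) (h0 : 0 ≤ t) (h1 : t ≤ 1)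
    (hx0 : x 0 = (1 - t) * a 0 + t * b 0) (hx1 : x 1 = (1 - t) * a 1 + t * b 1) :
    x ∈ segment ℝ a b := by
  refine ⟨1 - t, t, by linarith, h0, by ring, ?_⟩
  ext i
  fin_cases i
  · simpa using hx0.symm
  · simpa using hx1.symm

end Pool.Agent.H624R3
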