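import Mathlib
import Pool.Agent.H624R3.Poly

set_option autoImplicit false
open MeasureTheory
open scoped Pointwise

namespace Pool.Agent.H624R3

/-- square root of 16385 -/
noncomputable def R : ℝ := Real.sqrt 16385

lemma R_pos : 0 < R := Real.sqrt_pos.2 (by norm_num)
lemma R_sq : R ^ 2 = 16385 := Real.sq_sqrt (by norm_num)
lemma R_ne_one : R ≠ 1 := by
  intro h
  have := R_sq
  rw [h] at this
  norm_num at this

/-- right trapezoid -/
def K : Set P2 := PG (m := 4) ![0, -1, 0, 1] ![-1, 0, 1, 128] ![0, 0, 1, 256]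
/-- its mirror image -/
def L : Set P2 := PG (m := 4) ![0, 1, 0, -1] ![-1, 0, 1, 128] ![0, 0, 1, 256]
/-- the sum -/
def H : Set P2 := PG (m := 6) ![0, 1, -1, 0, 1, -1] ![-1, 0, 0, 1, 128, 128]
  ![0, 256, 256, 2, 384, 384]

lemma mem_K (x : P2) : x ∈ K ↔ 0 ≤ x 1 ∧ 0 ≤ x 0 ∧ x 1 ≤ 1 ∧ x 0 + 128 * x 1 ≤ 256 := by
  simp only [K, PG, Set.mem_ofPred_eq, Fin.forall_fin_succ, IsEmpty.forall_iff, and_true]
  simp

lemma mem_L (x : P2) : x ∈ L ↔ 0 ≤ x 1 ∧ x 0 ≤ 0 ∧ x 1 ≤ 1 ∧ -x 0 + 128 * x 1 ≤ 256 := by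
  simp only [L, PG, Set.mem_ofPred_eq, Fin.forall_fin_succ, IsEmpty.forall_iff, and_true]
  simp

lemma mem_H (x : P2) : x ∈ H ↔ 0 ≤ x 1 ∧ x 0 ≤ 256 ∧ -x 0 ≤ 256 ∧ x 1 ≤ 2 ∧
    x 0 + 128 * x 1 ≤ 384 ∧ -x 0 + 128 * x 1 ≤ 384 := by
  simp only [H, PG, Set.mem_ofPred_eq, Fin.forall_fin_succ, IsEmpty.forall_iff, and_true]
  simp

lemma sum_eq : K + L = H := by
  ext z
  rw [Set.mem_add]
  constructor
  · rintro ⟨x, hx, y, hy, rfl⟩
    rw [mem_K] at hx
    rw [mem_L] at hy
    rw [mem_H]
    simp only [PiLp.add_apply]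
    obtain ⟨a1, a2, a3, a4⟩ := hx
    obtain ⟨b1, b2, b3, b4⟩ := hy
    refine ⟨?_, ?_, ?_, ?_, ?_, ?_⟩ <;> linarith
  · intro hz
    rw [mem_H] at hz
    obtain ⟨a1, a2, a3, a4, a5, a6⟩ := hz
    rcases le_total 0 (z 0) with h0 | h0
    · rcases le_total (z 1) 1 with h1 | h1
      · refine ⟨!₂[z 0, 0], ?_, !₂[0, z 1], ?_, ?_⟩
        · rw [mem_K]; simp; exact ⟨h0, a2⟩
        · rw [mem_L]; simp; exact ⟨a1, h1, by linarith⟩
        · ext i; fin_cases i <;> simp
      · refine ⟨!₂[z 0, z 1 - 1], ?_, !₂[0, 1], ?_, ?_⟩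
        · rw [mem_K]; simp; exact ⟨h1, h0, by linarith, by linarith⟩
        · rw [mem_L]; simp; norm_num
        · ext i; fin_cases i <;> simp
    · rcases le_total (z 1) 1 with h1 | h1
      · refine ⟨!₂[0, z 1], ?_, !₂[z 0, 0], ?_, ?_⟩
        · rw [mem_K]; simp; exact ⟨a1, h1, by linarith⟩
        · rw [mem_L]; simp; exact ⟨h0, by linarith⟩
        · ext i; fin_cases i <;> simp
      · refine ⟨!₂[0, 1], ?_, !₂[z 0, z 1 - 1], ?_, ?_⟩
        · rw [mem_K]; simp; norm_num
        · rw [mem_L]; simp; exact ⟨h1, h0, by linarith, by linarith⟩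
        · ext i; fin_cases i <;> simp

lemma K_int (q : ℝ) (hq : 0 < q) : ∫ x in frontier K, Fp K q x ∂(μH[1]) =
    128 + (256 / R) ^ q * R := by
  have h := PG_integral (m := 4) ![0, -1, 0, 1] ![-1, 0, 1, 128] ![0, 0, 1, 256]
    ![1, 1, 1, R] ![256, 1, 128, R] q
    (by simp [Fin.forall_fin_succ, R_pos])
    (by simp [Fin.forall_fin_succ, R_sq]; norm_num)
    ![!₂[0, 0], !₂[0, 0], !₂[0, 1], !₂[256, 0]] ![!₂[256, 0], !₂[0, 1], !₂[128, 1], !₂[128, 1]]
    (by
      change ∀ i, _ ∈ K
      simp only [mem_K, Fin.forall_fin_succ, IsEmpty.forall_iff, and_true]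
      simp; norm_num)
    (by
      change ∀ i, _ ∈ K
      simp only [mem_K, Fin.forall_fin_succ, IsEmpty.forall_iff, and_true]
      simp; norm_num)
    (by simp [Fin.forall_fin_succ])
    (by simp [Fin.forall_fin_succ]; norm_num)
    (by
      change ∀ i, ∀ x ∈ K, _
      simp only [mem_K, Fin.forall_fin_succ, IsEmpty.forall_iff, and_true]
      simp only [Matrix.cons_val_zero, Matrix.cons_val_succ]
      refine ⟨?_, ?_, ?_, ?_⟩
      · rintro x ⟨a1, a2, a3, a4⟩ he
        refine mem_seg (x 0 / 256) (by positivity) (by rw [div_le_one (by norm_num)]; linarith) ?_ ?_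
        · simp
        · simp; linarith
      · rintro x ⟨a1, a2, a3, a4⟩ he
        refine mem_seg (x 1) (by linarith) (by linarith) ?_ ?_
        · simp; linarith
        · simp
      · rintro x ⟨a1, a2, a3, a4⟩ he
        refine mem_seg (x 0 / 128) (by positivity) (by rw [div_le_one (by norm_num)]; linarith) ?_ ?_
        · simp
        · simp; linarith
      · rintro x ⟨a1, a2, a3, a4⟩ he
        refine mem_seg (x 1) (by linarith) (by linarith) ?_ ?_
        · simp; linarith
        · simp)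
    (by simp [Fin.forall_fin_succ, R_pos])
    (by simp [Fin.forall_fin_succ, R_sq]; norm_num)
    !₂[1, 1/2]
    (by simp [Fin.forall_fin_succ]; norm_num)
    (by
      have hR := R_pos
      intro i j
      fin_cases i <;> fin_cases j <;> simp <;> intros <;> linarith)
  unfold K
  rw [h]
  simp [Fin.sum_univ_succ, Real.zero_rpow hq.ne']
  
lemma L_int (q : ℝ) (hq : 0 < q) : ∫ x in frontier L, Fp L q x ∂(μH[1]) =
    128 + (256 / R) ^ q * R := by
  have h := PG_integral (m := 4) ![0, 1, 0, -1] ![-1, 0, 1, 128] ![0, 0, 1, 256]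
    ![1, 1, 1, R] ![256, 1, 128, R] q
    (by simp [Fin.forall_fin_succ, R_pos])
    (by simp [Fin.forall_fin_succ, R_sq]; norm_num)
    ![!₂[0, 0], !₂[0, 0], !₂[0, 1], !₂[-256, 0]] ![!₂[-256, 0], !₂[0, 1], !₂[-128, 1], !₂[-128, 1]]
    (by
      change ∀ i, _ ∈ L
      simp only [mem_L, Fin.forall_fin_succ, IsEmpty.forall_iff, and_true]
      simp; norm_num)
    (by
      change ∀ i, _ ∈ L
      simp only [mem_L, Fin.forall_fin_succ, IsEmpty.forall_iff, and_true]
      simp; norm_num)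
    (by simp [Fin.forall_fin_succ])
    (by simp [Fin.forall_fin_succ]; norm_num)
    (by
      change ∀ i, ∀ x ∈ L, _
      simp only [mem_L, Fin.forall_fin_succ, IsEmpty.forall_iff, and_true]
      simp only [Matrix.cons_val_zero, Matrix.cons_val_succ]
      refine ⟨?_, ?_, ?_, ?_⟩
      · rintro x ⟨a1, a2, a3, a4⟩ he
        refine mem_seg (-x 0 / 256) (by apply div_nonneg <;> linarith)
          (by rw [div_le_one (by norm_num)]; linarith) ?_ ?_
        · simp
        · simp; linarith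
      · rintro x ⟨a1, a2, a3, a4⟩ he
        refine mem_seg (x 1) (by linarith) (by linarith) ?_ ?_
        · simp; linarith
        · simp
      · rintro x ⟨a1, a2, a3, a4⟩ he
        refine mem_seg (-x 0 / 128) (by apply div_nonneg <;> linarith)
          (by rw [div_le_one (by norm_num)]; linarith) ?_ ?_
        · simp
        · simp; linarith
      · rintro x ⟨a1, a2, a3, a4⟩ he
        refine mem_seg (x 1) (by linarith) (by linarith) ?_ ?_
        · simp; linarith
        · simp)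
    (by simp [Fin.forall_fin_succ, R_pos])
    (by simp [Fin.forall_fin_succ, R_sq]; norm_num)
    !₂[-1, 1/2]
    (by simp [Fin.forall_fin_succ]; norm_num)
    (by
      have hR := R_pos
      intro i j
      fin_cases i <;> fin_cases j <;> simp <;> intros <;> linarith)
  unfold L
  rw [h]
  simp [Fin.sum_univ_succ, Real.zero_rpow hq.ne']

lemma H_int (q : ℝ) (hq : 0 < q) : ∫ x in frontier H, Fp H q x ∂(μH[1]) =
    2 * (256 : ℝ) ^ q + 256 * (2 : ℝ) ^ q + 2 * ((384 / R) ^ q * R) := by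
  have h := PG_integral (m := 6) ![0, 1, -1, 0, 1, -1] ![-1, 0, 0, 1, 128, 128]
    ![0, 256, 256, 2, 384, 384]
    ![1, 1, 1, 1, R, R] ![512, 1, 1, 256, R, R] q
    (by simp [Fin.forall_fin_succ, R_pos])
    (by simp [Fin.forall_fin_succ, R_sq]; norm_num)
    ![!₂[-256, 0], !₂[256, 0], !₂[-256, 0], !₂[-128, 2], !₂[256, 1], !₂[-256, 1]]
    ![!₂[256, 0], !₂[256, 1], !₂[-256, 1], !₂[128, 2], !₂[128, 2], !₂[-128, 2]]
    (by
      change ∀ i, _ ∈ H
      simp only [mem_H, Fin.forall_fin_succ, IsEmpty.forall_iff, and_true]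
      simp; norm_num)
    (by
      change ∀ i, _ ∈ H
      simp only [mem_H, Fin.forall_fin_succ, IsEmpty.forall_iff, and_true]
      simp; norm_num)
    (by simp [Fin.forall_fin_succ]; norm_num)
    (by simp [Fin.forall_fin_succ]; norm_num)
    (by
      change ∀ i, ∀ x ∈ H, _
      simp only [mem_H, Fin.forall_fin_succ, IsEmpty.forall_iff, and_true]
      simp only [Matrix.cons_val_zero, Matrix.cons_val_succ]
      refine ⟨?_, ?_, ?_, ?_, ?_, ?_⟩
      · rintro x ⟨a1, a2, a3, a4, a5, a6⟩ he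
        refine mem_seg ((x 0 + 256) / 512) (by apply div_nonneg <;> linarith)
          (by rw [div_le_one (by norm_num)]; linarith) ?_ ?_
        · simp; ring
        · simp; linarith
      · rintro x ⟨a1, a2, a3, a4, a5, a6⟩ he
        refine mem_seg (x 1) (by linarith) (by linarith) ?_ ?_
        · simp; linarith
        · simp
      · rintro x ⟨a1, a2, a3, a4, a5, a6⟩ he
        refine mem_seg (x 1) (by linarith) (by linarith) ?_ ?_
        · simp; linarith
        · simp
      · rintro x ⟨a1, a2, a3, a4, a5, a6⟩ he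
        refine mem_seg ((x 0 + 128) / 256) (by apply div_nonneg <;> linarith)
          (by rw [div_le_one (by norm_num)]; linarith) ?_ ?_
        · simp; ring
        · simp; linarith
      · rintro x ⟨a1, a2, a3, a4, a5, a6⟩ he
        refine mem_seg (x 1 - 1) (by linarith) (by linarith) ?_ ?_
        · simp; linarith
        · simp; ring
      · rintro x ⟨a1, a2, a3, a4, a5, a6⟩ he
        refine mem_seg (x 1 - 1) (by linarith) (by linarith) ?_ ?_
        · simp; linarith
        · simp; ring)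
    (by simp [Fin.forall_fin_succ, R_pos])
    (by simp [Fin.forall_fin_succ, R_sq]; norm_num)
    !₂[0, 1]
    (by simp [Fin.forall_fin_succ]; norm_num)
    (by
      have hR := R_pos
      intro i j
      fin_cases i <;> fin_cases j <;> simp <;> intros <;> linarith)
  unfold H
  rw [h]
  simp [Fin.sum_univ_succ, Real.zero_rpow hq.ne']
  ring

end Pool.Agent.H624R3
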