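import Mathlib
import Pool.Agent.H624R3.Shapes

set_option autoImplicit false
open MeasureTheory
open scoped Pointwise

namespace Pool.Agent.H624R3

lemma K_zero : (0 : P2) ∈ K := by rw [mem_K]; simp
lemma L_zero : (0 : P2) ∈ L := by rw [mem_L]; simp

lemma K_compact : IsCompact K := by
  refine Metric.isCompact_of_isClosed_isBounded (PG_closed _ _ _) ?_
  refine (Metric.isBounded_closedBall (x := (0 : P2)) (r := 1000)).subset ?_
  intro x hx
  rw [mem_K] at hx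
  obtain ⟨a1, a2, a3, a4⟩ := hx
  rw [mem_closedBall_zero_iff, norm2]
  apply Real.sqrt_le_iff.2
  constructor
  · norm_num
  · nlinarith

lemma L_compact : IsCompact L := by
  refine Metric.isCompact_of_isClosed_isBounded (PG_closed _ _ _) ?_
  refine (Metric.isBounded_closedBall (x := (0 : P2)) (r := 1000)).subset ?_
  intro x hx
  rw [mem_L] at hx
  obtain ⟨a1, a2, a3, a4⟩ := hx
  rw [mem_closedBall_zero_iff, norm2]
  apply Real.sqrt_le_iff.2
  constructor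
  · norm_num
  · nlinarith

lemma K_int_nonempty : (interior K).Nonempty := by
  refine ⟨!₂[1, 1/2], ?_⟩
  unfold K
  rw [PG_interior _ _ _ (by simp [Fin.forall_fin_succ]; norm_num)]
  simp [Fin.forall_fin_succ]; norm_num

lemma L_int_nonempty : (interior L).Nonempty := by
  refine ⟨!₂[-1, 1/2], ?_⟩
  unfold L
  rw [PG_interior _ _ _ (by simp [Fin.forall_fin_succ]; norm_num)]
  simp [Fin.forall_fin_succ]; norm_num

lemma numeric (h : (128 + (256 / R) ^ (1 - 1 / 2 : ℝ) * R) ^ (1 / (((2 : ℕ) : ℝ) - 1 / 2)) +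
    (128 + (256 / R) ^ (1 - 1 / 2 : ℝ) * R) ^ (1 / (((2 : ℕ) : ℝ) - 1 / 2)) ≤
    (2 * (256 : ℝ) ^ (1 - 1 / 2 : ℝ) + 256 * (2 : ℝ) ^ (1 - 1 / 2 : ℝ) +
      2 * ((384 / R) ^ (1 - 1 / 2 : ℝ) * R)) ^ (1 / (((2 : ℕ) : ℝ) - 1 / 2))) : False := by
  have hR := R_pos
  have hR2 := R_sq
  have e1 : (1 - 1 / 2 : ℝ) = 1 / 2 := by norm_num
  have e2 : (1 / (((2 : ℕ) : ℝ) - 1 / 2)) = (2 / 3 : ℝ) := by norm_num
  rw [e1, e2] at h
  rw [← Real.sqrt_eq_rpow, ← Real.sqrt_eq_rpow, ← Real.sqrt_eq_rpow, ← Real.sqrt_eq_rpow] at h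
  set b : ℝ := Real.sqrt R with hb
  have hb2 : b ^ 2 = R := Real.sq_sqrt hR.le
  have hbpos : 0 < b := Real.sqrt_pos.2 hR
  have k1 : Real.sqrt (256 / R) * R = 16 * b := by
    rw [Real.sqrt_div (by norm_num), ← hb, show (256 : ℝ) = 16 ^ 2 by norm_num,
      Real.sqrt_sq (by norm_num), ← hb2]
    field_simp
  have k2 : Real.sqrt (384 / R) * R = Real.sqrt 384 * b := by
    rw [Real.sqrt_div (by norm_num), ← hb, ← hb2]
    field_simp
  have k3 : Real.sqrt 256 = 16 := by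
    rw [show (256 : ℝ) = 16 ^ 2 by norm_num, Real.sqrt_sq (by norm_num)]
  rw [k1, k2, k3] at h
  have hR100 : 100 ≤ R := by
    rw [R]
    apply Real.le_sqrt_of_sq_le
    norm_num
  have hb10 : 10 ≤ b := by
    rw [hb]
    apply Real.le_sqrt_of_sq_le
    linarith
  set S : ℝ := 128 + 16 * b with hS
  have hS0 : 0 < S := by positivity
  have hT0 : 0 ≤ 2 * (16 : ℝ) + 256 * Real.sqrt 2 + 2 * (Real.sqrt 384 * b) := by positivity
  -- raise to the power 3/2
  have h2 := Real.rpow_le_rpow (by positivity) h (show (0 : ℝ) ≤ 3 / 2 by norm_num)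
  rw [← Real.rpow_mul hT0, show (2 / 3 : ℝ) * (3 / 2) = 1 by norm_num, Real.rpow_one,
    ← two_mul, Real.mul_rpow (by norm_num) (by positivity), ← Real.rpow_mul hS0.le,
    show (2 / 3 : ℝ) * (3 / 2) = 1 by norm_num, Real.rpow_one] at h2
  have h3 : (2 : ℝ) ^ (3 / 2 : ℝ) = 2 * Real.sqrt 2 := by
    rw [show (3 / 2 : ℝ) = 1 + 1 / 2 by norm_num, Real.rpow_add (by norm_num), Real.rpow_one,
      ← Real.sqrt_eq_rpow]
  rw [h3, hS] at h2
  have q1 : 1.414 ≤ Real.sqrt 2 := by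
    apply Real.le_sqrt_of_sq_le; norm_num
  have q2 : Real.sqrt 384 ≤ 19.6 := by
    apply Real.sqrt_le_iff.2; norm_num
  nlinarith

end Pool.Agent.H624R3
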